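import Pool.Agent.H793.MS.St

/-!
# Minimal submanifolds with `H^m`-null limit set have discrete spectrum

Let `G` be ANY smooth Riemannian metric on `ℝⁿ` (by the Cartan-Hadamard theorem every
Cartan-Hadamard manifold is of this form), `m ≥ 3`, `D` a bounded open strictly `m`-convex set and
`φ : M → D` a minimal immersion of an `m`-dimensional manifold with `H^m(lim φ ∩ D) = 0`. Then the
spectrum of `-Δ` on `M` is discrete.

`m`-convexity is understood up to the boundary (the sum of the `m` smallest eigenvalues of the
Hessian is positive at every point of the closure of `D`). The second part of the theorem shows that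
this is necessary: if the sum is only required to be positive at the points of `D`, then the
statement is false (for `m = 3` in the flat `ℝ⁵`).

Idea of the proof. By duality (Hahn-Banach, Riesz) and a Gronwall argument a compact set `S` with
`H^m(S) = 0` carries a finite positive combination `W` of the kernels
`(r² + |x - x_i|²)^{-(m-2)/2}` (with a lower order correction) with `-tr Hess W ≥ Λ W` near `S` on
all `m`-planes; Barta's inequality on `M` for `W` and for the convexity function of `D`, and
Rellich's lemma finish the proof.
-/

set_option autoImplicit false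

open scoped ContDiff Topology ENNReal Manifold
open MeasureTheory Set Filter

namespace Pool.Agent.Results.MP_899162_gt.DiscreteSpectrumNullLimitSet

open Pool.Agent.H793.MS Pool.Agent.H793.MS.St

universe u

/-- Minimal immersions `φ : M → D` of `m`-manifolds with `H^m(lim φ ∩ D) = 0` have discrete
spectrum. -/
def NullLimitSetDiscrete (m : ℕ) {n : ℕ} (G : RMetric n) (D : Set (E n)) : Prop :=
  ∀ (M : Type u) [TopologicalSpace M] [T2Space M] [SecondCountableTopology M]
    [ChartedSpace (E m) M] [IsManifold (𝓡 m) ∞ M] [MeasurableSpace M] [BorelSpace M]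
    (φ : M → E n), IsMinimal (m := m) G φ → (∀ p, φ p ∈ D) →
    ∀ μ : Measure M, IsVol (m := m) G φ μ →
    μH[(m : ℝ)] (limSet φ ∩ D) = 0 → DiscreteSpec (m := m) G φ μ

/-- There is a connected minimal `φ : U → D`, `U` open in `ℝᵐ`, with `H^m(lim φ ∩ D) = 0`, whose
spectrum is not discrete. -/
def HasBadImmersion (m : ℕ) {n : ℕ} (G : RMetric n) (D : Set (E n)) : Prop :=
  ∃ (U : TopologicalSpace.Opens (E m)) (φ : U → E n) (μ : Measure U), ConnectedSpace U ∧
    IsMinimal (m := m) G φ ∧ (∀ p, φ p ∈ D) ∧ IsVol (m := m) G φ μ ∧
    μH[(m : ℝ)] (limSet φ ∩ D) = 0 ∧ ¬ DiscreteSpec (m := m) G φ μ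

/-- **Discreteness of the spectrum of minimal submanifolds with small limit set.** (1) The positive
answer for all smooth metrics on `ℝⁿ`, all `m ≥ 3` and all bounded domains which are strictly
`m`-convex up to the boundary. (2) If strict `m`-convexity is only required at the points of the
open set `D`, the statement fails: for `m = 3` there are a bounded open `D ⊆ ℝ⁵` which is strictly
`3`-convex in this weak sense and a connected minimal `φ : U → D` with `H³(lim φ ∩ D) = 0`, whose
spectrum is not discrete. -/
theorem result :
    (∀ (n m : ℕ), 3 ≤ m → ∀ (G : RMetric n) (D : Set (E n)), IsOpen D → IsCompact (closure D) →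
      ConvexUpToBoundary G m D → NullLimitSetDiscrete.{u} m G D) ∧
    (∃ D : Set (E 5), IsOpen D ∧ IsCompact (closure D) ∧ ConvexInside (flatR 5) 3 D ∧
      HasBadImmersion 3 (flatR 5) D) := by
  refine ⟨fun n m hm G D hDo hDc hD M _ _ _ _ _ _ _ φ hφ hφD μ hμ hlim => ?_, D0, D0_facts.1,
    D0_facts.2.1, ?_, U0, fun p => spiral (p : E 3), volU (flat 5) spiral U0, connected_U0, ?_, ?_,
    ?_, limSet_spiral, ?_⟩
  · rw [discrete_iff]
    exact main hm (toM G) D hDo hDc ((convex_iff G D).1 hD) φ ((minimal_iff G φ).1 hφ) hφD μ
      ((vol_iff G φ μ).1 hμ) hlim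
  · rw [inside_iff, toM_flat]
    exact convexLit_D0
  · rw [minimal_iff, toM_flat]
    exact minimal_opens _ _ _ contDiff_spiral (fun u _ => injective_spiral u)
      (fun u _ => meanCurvZero_spiral u)
  · exact fun p => spiral_mem _ p.2
  · rw [vol_iff, toM_flat]
    exact isVolume_opens _ _ _ contDiff_spiral
  · rw [discrete_iff, toM_flat]
    exact not_discrete_spiral

end Pool.Agent.Results.MP_899162_gt.DiscreteSpectrumNullLimitSet
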